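import Pool.Agent.Q178.Snf.FreeMain

set_option autoImplicit false

/-!
snf-countability passes from `F_2(X)` to `F_3(X)` and from `A_2(X)` to `A_3(X)`.
-/

universe u

namespace Pool.Agent.Results.MP_e5b41c_gt.SnfThirdLevel

open Q178.Snf

/-- **snf-countability passes from the second to the third level.** Let `X` be a Tychonoff `k`-space
with a regular `G_δ`-diagonal. If `F_2(X)` is snf-countable, then `F_3(X)` is snf-countable; if
`A_2(X)` is snf-countable, then `A_3(X)` is snf-countable. -/
theorem result (X : Type u) [TopologicalSpace X] [T35Space X] (hk : IsKSpace X)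
    (hd : HasRegularGDeltaDiagonal X) :
    (SnfCountable (Fn X 2) → SnfCountable (Fn X 3)) ∧
      (SnfCountable (An X 2) → SnfCountable (An X 3)) :=
  ⟨fun h => snfCountable_F3 hk hd le_rfl h, fun h => snfCountable_An hk hd le_rfl h 3⟩

end Pool.Agent.Results.MP_e5b41c_gt.SnfThirdLevel
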